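import Mathlib

namespace Pool.Agent.Results.MP_a60869_co.Book

/-- vertices of the book: star vertex (none = centre) times the two ends of K_2 -/
abbrev V (n : ℕ) := Option (Fin n) × Bool

/-- edges of the book: the spine, and three edges for each page -/
abbrev E (n : ℕ) := Option (Fin n × Fin 3)

def ends {n : ℕ} : E n → V n × V n
  | none => ((none, false), (none, true))
  | some (i, 0) => ((none, false), (some i, false))
  | some (i, 1) => ((none, true), (some i, true))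
  | some (i, 2) => ((some i, false), (some i, true))

def SEM (n : ℕ) : Prop :=
  ∃ (f : V n → ℤ) (g : E n → ℤ) (σ : ℤ),
    Set.BijOn f Set.univ (Set.Icc 1 (2 * n + 2)) ∧
    Set.BijOn g Set.univ (Set.Icc (2 * n + 3) (5 * n + 3)) ∧
    ∀ e, f (ends e).1 + f (ends e).2 + g e = σ

def C1 (n a b s : ℤ) (p : ℤ × ℤ) : Prop :=
  1 ≤ p.1 ∧ p.1 ≤ 2 * n + 2 ∧ 1 ≤ p.2 ∧ p.2 ≤ 2 * n + 2 ∧ p.1 ≠ a ∧ p.1 ≠ b ∧ p.2 ≠ a ∧ p.2 ≠ b ∧
  s ≤ p.1 + a ∧ p.1 + a ≤ s + 3 * n ∧ s ≤ p.2 + b ∧ p.2 + b ≤ s + 3 * n ∧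
  s ≤ p.1 + p.2 ∧ p.1 + p.2 ≤ s + 3 * n ∧ p.1 + p.2 ≠ a + b

def C2a (_a _b i j : ℤ) (p q : ℤ × ℤ) : Prop :=
  (p.1 = q.1 → i = j) ∧ (p.2 = q.2 → i = j) ∧ p.1 ≠ q.2 ∧ (p.1 + p.2 = q.1 + q.2 → i = j)

def C2b (a b _i _j : ℤ) (p q : ℤ × ℤ) : Prop :=
  p.1 + a ≠ q.2 + b ∧ p.1 + a ≠ q.1 + q.2 ∧ p.2 + b ≠ q.1 + q.2

instance (n a b s : ℤ) (p : ℤ × ℤ) : Decidable (C1 n a b s p) := by unfold C1; infer_instance
instance (a b i j : ℤ) (p q : ℤ × ℤ) : Decidable (C2a a b i j p q) := by unfold C2a; infer_instance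
instance (a b i j : ℤ) (p q : ℤ × ℤ) : Decidable (C2b a b i j p q) := by unfold C2b; infer_instance

lemma bij {A : Type} [Fintype A] (f : A → ℤ) (lo hi : ℤ) (hm : ∀ x, lo ≤ f x ∧ f x ≤ hi)
    (hi' : Function.Injective f) (hc : (Fintype.card A : ℤ) = hi + 1 - lo) :
    Set.BijOn f Set.univ (Set.Icc lo hi) := by
  refine ⟨fun x _ => hm x, hi'.injOn, ?_⟩
  have h1 : Finset.univ.image f = Finset.Icc lo hi := by
    apply Finset.eq_of_subset_of_card_le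
    · intro y hy
      obtain ⟨x, -, rfl⟩ := Finset.mem_image.1 hy
      exact Finset.mem_Icc.2 (hm x)
    · rw [Finset.card_image_of_injective _ hi', Finset.card_univ, Int.card_Icc]
      omega
  intro y hy
  have : y ∈ Finset.univ.image f := by rw [h1]; exact Finset.mem_Icc.2 hy
  obtain ⟨x, -, rfl⟩ := Finset.mem_image.1 this
  exact ⟨x, trivial, rfl⟩

def fv {n : ℕ} (a b : ℤ) (P : ℕ → ℤ × ℤ) : V n → ℤ
  | (none, false) => a
  | (none, true) => b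
  | (some i, false) => (P i).1
  | (some i, true) => (P i).2

lemma build (n : ℕ) (a b s : ℤ) (P : ℕ → ℤ × ℤ)
    (h0 : 1 ≤ a ∧ a ≤ 2 * (n : ℤ) + 2 ∧ 1 ≤ b ∧ b ≤ 2 * (n : ℤ) + 2 ∧ a ≠ b ∧ s ≤ a + b ∧
      a + b ≤ s + 3 * (n : ℤ))
    (h1 : ∀ i < n, C1 n a b s (P i))
    (h2 : ∀ i < n, ∀ j < n, C2a a b i j (P i) (P j))
    (h3 : ∀ i < n, ∀ j < n, C2b a b i j (P i) (P j)) : SEM n := by
  have k1 : ∀ i : Fin n, C1 n a b s (P i) := fun i => h1 i i.2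
  have k2 : ∀ i j : Fin n, C2a a b (i : ℕ) (j : ℕ) (P i) (P j) := fun i j => h2 i i.2 j j.2
  have k3 : ∀ i j : Fin n, C2b a b (i : ℕ) (j : ℕ) (P i) (P j) := fun i j => h3 i i.2 j j.2
  unfold C1 at k1
  unfold C2a at k2
  unfold C2b at k3
  refine ⟨fv a b P, fun e => s + 5 * n + 3 - (fv a b P (ends e).1 + fv a b P (ends e).2),
    s + 5 * n + 3, bij _ _ _ ?_ ?_ (by simp; ring), bij _ _ _ ?_ ?_ (by simp; ring), fun e => by ring⟩
  · rintro ⟨_ | i, _ | _⟩ <;> simp only [fv] <;> first | omega | (have := k1 i; omega)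
  · rintro ⟨_ | i, _ | _⟩ ⟨_ | j, _ | _⟩ h <;> simp only [fv] at h <;>
      first
      | rfl
      | (have := k2 i j; have := k2 j i; have : i = j := Fin.ext (by omega); subst this;
          first | rfl | omega)
      | (have := k1 i; omega)
      | (have := k1 j; omega)
      | omega
  · rintro (_ | ⟨i, r⟩)
    · simp only [fv, ends]; omega
    · have := k1 i
      fin_cases r <;> simp only [fv, ends] <;> omega
  · rintro (_ | ⟨i, r⟩) (_ | ⟨j, t⟩) h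
    · rfl
    · have := k1 j
      fin_cases t <;> simp only [fv, ends] at h <;> omega
    · have := k1 i
      fin_cases r <;> simp only [fv, ends] at h <;> omega
    · have := k2 i j
      have := k3 i j
      have := k3 j i
      fin_cases r <;> fin_cases t <;> simp only [fv, ends] at h <;>
        first | omega | (have : i = j := Fin.ext (by omega); subst this; rfl)

def PA (k i : ℤ) : ℤ × ℤ :=
  if i < 1 * (k - 1) then (0 * k + (4) + (2) * (i - 0 * (k - 1)), 6 * k + (2) + (-1) * (i - 0 * (k - 1))) else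
  if i < 2 * (k - 1) then (0 * k + (5) + (2) * (i - 1 * (k - 1)), 8 * k + (4) + (-1) * (i - 1 * (k - 1))) else
  if i < 3 * (k - 1) then (2 * k + (5) + (2) * (i - 2 * (k - 1)), 5 * k + (2) + (-1) * (i - 2 * (k - 1))) else
  if i < 4 * (k - 1) then (2 * k + (4) + (2) * (i - 3 * (k - 1)), 7 * k + (4) + (-1) * (i - 3 * (k - 1))) else
  if i = 4 * (k - 1) + 0 then (0 * k + (1), 7 * k + (5)) else
  if i = 4 * (k - 1) + 1 then (0 * k + (2), 8 * k + (6)) else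
  if i = 4 * (k - 1) + 2 then (0 * k + (3), 4 * k + (3)) else
  if i = 4 * (k - 1) + 3 then (2 * k + (2), 5 * k + (3)) else
  if i = 4 * (k - 1) + 4 then (4 * k + (2), 8 * k + (5)) else
  (6 * k + (3), 6 * k + (5))

lemma csA (k i : ℤ) (h0 : 0 ≤ i) (hi : i < (4 * k + 2)) (p : ℤ × ℤ) (hp : PA k i = p) :
    (0 * (k - 1) ≤ i ∧ i < 1 * (k - 1) ∧ p.1 = 0 * k + (4) + (2) * (i - 0 * (k - 1)) ∧ p.2 = 6 * k + (2) + (-1) * (i - 0 * (k - 1))) ∨
    (1 * (k - 1) ≤ i ∧ i < 2 * (k - 1) ∧ p.1 = 0 * k + (5) + (2) * (i - 1 * (k - 1)) ∧ p.2 = 8 * k + (4) + (-1) * (i - 1 * (k - 1))) ∨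
    (2 * (k - 1) ≤ i ∧ i < 3 * (k - 1) ∧ p.1 = 2 * k + (5) + (2) * (i - 2 * (k - 1)) ∧ p.2 = 5 * k + (2) + (-1) * (i - 2 * (k - 1))) ∨
    (3 * (k - 1) ≤ i ∧ i < 4 * (k - 1) ∧ p.1 = 2 * k + (4) + (2) * (i - 3 * (k - 1)) ∧ p.2 = 7 * k + (4) + (-1) * (i - 3 * (k - 1))) ∨
    (i = 4 * (k - 1) + 0 ∧ p.1 = 0 * k + (1) ∧ p.2 = 7 * k + (5)) ∨
    (i = 4 * (k - 1) + 1 ∧ p.1 = 0 * k + (2) ∧ p.2 = 8 * k + (6)) ∨
    (i = 4 * (k - 1) + 2 ∧ p.1 = 0 * k + (3) ∧ p.2 = 4 * k + (3)) ∨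
    (i = 4 * (k - 1) + 3 ∧ p.1 = 2 * k + (2) ∧ p.2 = 5 * k + (3)) ∨
    (i = 4 * (k - 1) + 4 ∧ p.1 = 4 * k + (2) ∧ p.2 = 8 * k + (5)) ∨
    (i = 4 * (k - 1) + 5 ∧ p.1 = 6 * k + (3) ∧ p.2 = 6 * k + (5)) := by
  unfold PA at hp
  by_cases c0 : i < 1 * (k - 1)
  · rw [if_pos c0] at hp; subst hp; exact Or.inl ⟨by omega, by omega, rfl, rfl⟩
  rw [if_neg c0] at hp; right
  by_cases c1 : i < 2 * (k - 1)
  · rw [if_pos c1] at hp; subst hp; exact Or.inl ⟨by omega, by omega, rfl, rfl⟩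
  rw [if_neg c1] at hp; right
  by_cases c2 : i < 3 * (k - 1)
  · rw [if_pos c2] at hp; subst hp; exact Or.inl ⟨by omega, by omega, rfl, rfl⟩
  rw [if_neg c2] at hp; right
  by_cases c3 : i < 4 * (k - 1)
  · rw [if_pos c3] at hp; subst hp; exact Or.inl ⟨by omega, by omega, rfl, rfl⟩
  rw [if_neg c3] at hp; right
  by_cases d0 : i = 4 * (k - 1) + 0
  · rw [if_pos d0] at hp; subst hp; exact Or.inl ⟨d0, rfl, rfl⟩
  rw [if_neg d0] at hp; right
  by_cases d1 : i = 4 * (k - 1) + 1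
  · rw [if_pos d1] at hp; subst hp; exact Or.inl ⟨d1, rfl, rfl⟩
  rw [if_neg d1] at hp; right
  by_cases d2 : i = 4 * (k - 1) + 2
  · rw [if_pos d2] at hp; subst hp; exact Or.inl ⟨d2, rfl, rfl⟩
  rw [if_neg d2] at hp; right
  by_cases d3 : i = 4 * (k - 1) + 3
  · rw [if_pos d3] at hp; subst hp; exact Or.inl ⟨d3, rfl, rfl⟩
  rw [if_neg d3] at hp; right
  by_cases d4 : i = 4 * (k - 1) + 4
  · rw [if_pos d4] at hp; subst hp; exact Or.inl ⟨d4, rfl, rfl⟩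
  rw [if_neg d4] at hp; right
  subst hp; exact ⟨by omega, rfl, rfl⟩

lemma c1A (k i : ℤ) (hk : 1 ≤ k) (h0 : 0 ≤ i) (hi : i < (4 * k + 2)) (p : ℤ × ℤ) (hp : PA k i = p) :
    C1 (4 * k + 2) (2 * k + 3) (6 * k + 4) (2 * k + 4) p := by
  have h := csA k i h0 hi p hp
  clear hp
  unfold C1
  rcases h with h | h | h | h | h | h | h | h | h | h <;> omega

lemma c2aA (k i j : ℤ) (hk : 1 ≤ k) (h0 : 0 ≤ i) (hi : i < (4 * k + 2)) (h1 : 0 ≤ j) (hj : j < (4 * k + 2))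
    (p q : ℤ × ℤ) (hp : PA k i = p) (hq : PA k j = q) :
    C2a (2 * k + 3) (6 * k + 4) i j p q := by
  have h := csA k i h0 hi p hp
  have g := csA k j h1 hj q hq
  clear hp hq h0 h1 hi hj
  unfold C2a
  rcases h with h | h | h | h | h | h | h | h | h | h <;> rcases g with g | g | g | g | g | g | g | g | g | g <;> omega

lemma c2bA (k i j : ℤ) (hk : 1 ≤ k) (h0 : 0 ≤ i) (hi : i < (4 * k + 2)) (h1 : 0 ≤ j) (hj : j < (4 * k + 2))
    (p q : ℤ × ℤ) (hp : PA k i = p) (hq : PA k j = q) :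
    C2b (2 * k + 3) (6 * k + 4) i j p q := by
  have h := csA k i h0 hi p hp
  have g := csA k j h1 hj q hq
  clear hp hq h0 h1 hi hj
  unfold C2b
  rcases h with h | h | h | h | h | h | h | h | h | h <;> rcases g with g | g | g | g | g | g | g | g | g | g <;> omega

lemma famA (k : ℕ) (hk : 1 ≤ k) : SEM (4 * k + 2) := by
  refine build _ (2 * k + 3) (6 * k + 4) (2 * k + 4) (fun i => PA k i) (by push_cast; omega) ?_ ?_ ?_
  · intro i hi
    have := c1A k i (by omega) (by omega) (by omega) _ rfl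
    simpa using this
  · intro i hi j hj
    exact c2aA k i j (by omega) (by omega) (by omega) (by omega) (by omega) _ _ rfl rfl
  · intro i hi j hj
    exact c2bA k i j (by omega) (by omega) (by omega) (by omega) (by omega) _ _ rfl rfl

def PB (k i : ℤ) : ℤ × ℤ :=
  if i < 1 * (k - 2) then (0 * k + (3) + (2) * (i - 0 * (k - 2)), 6 * k + (1) + (-1) * (i - 0 * (k - 2))) else
  if i < 2 * (k - 2) then (0 * k + (4) + (2) * (i - 1 * (k - 2)), 8 * k + (0) + (-1) * (i - 1 * (k - 2))) else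
  if i < 3 * (k - 2) then (2 * k + (4) + (2) * (i - 2 * (k - 2)), 5 * k + (1) + (-1) * (i - 2 * (k - 2))) else
  if i < 4 * (k - 2) then (2 * k + (3) + (2) * (i - 3 * (k - 2)), 7 * k + (0) + (-1) * (i - 3 * (k - 2))) else
  if i = 4 * (k - 2) + 0 then (0 * k + (2), 7 * k + (2)) else
  if i = 4 * (k - 2) + 1 then (2 * k + (-1), 5 * k + (3)) else
  if i = 4 * (k - 2) + 2 then (2 * k + (0), 4 * k + (0)) else
  if i = 4 * (k - 2) + 3 then (2 * k + (2), 4 * k + (-1)) else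
  if i = 4 * (k - 2) + 4 then (4 * k + (1), 0 * k + (1)) else
  if i = 4 * (k - 2) + 5 then (5 * k + (2), 8 * k + (1)) else
  if i = 4 * (k - 2) + 6 then (7 * k + (1), 4 * k + (3)) else
  (8 * k + (2), 4 * k + (2))

lemma csB (k i : ℤ) (h0 : 0 ≤ i) (hi : i < (4 * k + 0)) (p : ℤ × ℤ) (hp : PB k i = p) :
    (0 * (k - 2) ≤ i ∧ i < 1 * (k - 2) ∧ p.1 = 0 * k + (3) + (2) * (i - 0 * (k - 2)) ∧ p.2 = 6 * k + (1) + (-1) * (i - 0 * (k - 2))) ∨
    (1 * (k - 2) ≤ i ∧ i < 2 * (k - 2) ∧ p.1 = 0 * k + (4) + (2) * (i - 1 * (k - 2)) ∧ p.2 = 8 * k + (0) + (-1) * (i - 1 * (k - 2))) ∨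
    (2 * (k - 2) ≤ i ∧ i < 3 * (k - 2) ∧ p.1 = 2 * k + (4) + (2) * (i - 2 * (k - 2)) ∧ p.2 = 5 * k + (1) + (-1) * (i - 2 * (k - 2))) ∨
    (3 * (k - 2) ≤ i ∧ i < 4 * (k - 2) ∧ p.1 = 2 * k + (3) + (2) * (i - 3 * (k - 2)) ∧ p.2 = 7 * k + (0) + (-1) * (i - 3 * (k - 2))) ∨
    (i = 4 * (k - 2) + 0 ∧ p.1 = 0 * k + (2) ∧ p.2 = 7 * k + (2)) ∨
    (i = 4 * (k - 2) + 1 ∧ p.1 = 2 * k + (-1) ∧ p.2 = 5 * k + (3)) ∨
    (i = 4 * (k - 2) + 2 ∧ p.1 = 2 * k + (0) ∧ p.2 = 4 * k + (0)) ∨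
    (i = 4 * (k - 2) + 3 ∧ p.1 = 2 * k + (2) ∧ p.2 = 4 * k + (-1)) ∨
    (i = 4 * (k - 2) + 4 ∧ p.1 = 4 * k + (1) ∧ p.2 = 0 * k + (1)) ∨
    (i = 4 * (k - 2) + 5 ∧ p.1 = 5 * k + (2) ∧ p.2 = 8 * k + (1)) ∨
    (i = 4 * (k - 2) + 6 ∧ p.1 = 7 * k + (1) ∧ p.2 = 4 * k + (3)) ∨
    (i = 4 * (k - 2) + 7 ∧ p.1 = 8 * k + (2) ∧ p.2 = 4 * k + (2)) := by
  unfold PB at hp
  by_cases c0 : i < 1 * (k - 2)
  · rw [if_pos c0] at hp; subst hp; exact Or.inl ⟨by omega, by omega, rfl, rfl⟩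
  rw [if_neg c0] at hp; right
  by_cases c1 : i < 2 * (k - 2)
  · rw [if_pos c1] at hp; subst hp; exact Or.inl ⟨by omega, by omega, rfl, rfl⟩
  rw [if_neg c1] at hp; right
  by_cases c2 : i < 3 * (k - 2)
  · rw [if_pos c2] at hp; subst hp; exact Or.inl ⟨by omega, by omega, rfl, rfl⟩
  rw [if_neg c2] at hp; right
  by_cases c3 : i < 4 * (k - 2)
  · rw [if_pos c3] at hp; subst hp; exact Or.inl ⟨by omega, by omega, rfl, rfl⟩
  rw [if_neg c3] at hp; right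
  by_cases d0 : i = 4 * (k - 2) + 0
  · rw [if_pos d0] at hp; subst hp; exact Or.inl ⟨d0, rfl, rfl⟩
  rw [if_neg d0] at hp; right
  by_cases d1 : i = 4 * (k - 2) + 1
  · rw [if_pos d1] at hp; subst hp; exact Or.inl ⟨d1, rfl, rfl⟩
  rw [if_neg d1] at hp; right
  by_cases d2 : i = 4 * (k - 2) + 2
  · rw [if_pos d2] at hp; subst hp; exact Or.inl ⟨d2, rfl, rfl⟩
  rw [if_neg d2] at hp; right
  by_cases d3 : i = 4 * (k - 2) + 3
  · rw [if_pos d3] at hp; subst hp; exact Or.inl ⟨d3, rfl, rfl⟩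
  rw [if_neg d3] at hp; right
  by_cases d4 : i = 4 * (k - 2) + 4
  · rw [if_pos d4] at hp; subst hp; exact Or.inl ⟨d4, rfl, rfl⟩
  rw [if_neg d4] at hp; right
  by_cases d5 : i = 4 * (k - 2) + 5
  · rw [if_pos d5] at hp; subst hp; exact Or.inl ⟨d5, rfl, rfl⟩
  rw [if_neg d5] at hp; right
  by_cases d6 : i = 4 * (k - 2) + 6
  · rw [if_pos d6] at hp; subst hp; exact Or.inl ⟨d6, rfl, rfl⟩
  rw [if_neg d6] at hp; right
  subst hp; exact ⟨by omega, rfl, rfl⟩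

lemma c1B (k i : ℤ) (hk : 2 ≤ k) (h0 : 0 ≤ i) (hi : i < (4 * k + 0)) (p : ℤ × ℤ) (hp : PB k i = p) :
    C1 (4 * k + 0) (2 * k + 1) (6 * k + 2) (2 * k + 3) p := by
  have h := csB k i h0 hi p hp
  clear hp
  unfold C1
  rcases h with h | h | h | h | h | h | h | h | h | h | h | h <;> omega

lemma c2aB (k i j : ℤ) (hk : 2 ≤ k) (h0 : 0 ≤ i) (hi : i < (4 * k + 0)) (h1 : 0 ≤ j) (hj : j < (4 * k + 0))
    (p q : ℤ × ℤ) (hp : PB k i = p) (hq : PB k j = q) :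
    C2a (2 * k + 1) (6 * k + 2) i j p q := by
  have h := csB k i h0 hi p hp
  have g := csB k j h1 hj q hq
  clear hp hq h0 h1 hi hj
  unfold C2a
  rcases h with h | h | h | h | h | h | h | h | h | h | h | h <;> rcases g with g | g | g | g | g | g | g | g | g | g | g | g <;> omega

lemma c2bB (k i j : ℤ) (hk : 2 ≤ k) (h0 : 0 ≤ i) (hi : i < (4 * k + 0)) (h1 : 0 ≤ j) (hj : j < (4 * k + 0))
    (p q : ℤ × ℤ) (hp : PB k i = p) (hq : PB k j = q) :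
    C2b (2 * k + 1) (6 * k + 2) i j p q := by
  have h := csB k i h0 hi p hp
  have g := csB k j h1 hj q hq
  clear hp hq h0 h1 hi hj
  unfold C2b
  rcases h with h | h | h | h | h | h | h | h | h | h | h | h <;> rcases g with g | g | g | g | g | g | g | g | g | g | g | g <;> omega

lemma famB (k : ℕ) (hk : 2 ≤ k) : SEM (4 * k + 0) := by
  refine build _ (2 * k + 1) (6 * k + 2) (2 * k + 3) (fun i => PB k i) (by push_cast; omega) ?_ ?_ ?_
  · intro i hi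
    have := c1B k i (by omega) (by omega) (by omega) _ rfl
    simpa using this
  · intro i hi j hj
    exact c2aB k i j (by omega) (by omega) (by omega) (by omega) (by omega) _ _ rfl rfl
  · intro i hi j hj
    exact c2bB k i j (by omega) (by omega) (by omega) (by omega) (by omega) _ _ rfl rfl

def PC (k i : ℤ) : ℤ × ℤ :=
  if i < 1 * (k - 1) then (12 * k + (15) + (2) * (i - 0 * (k - 1)), 11 * k + (8) + (-1) * (i - 0 * (k - 1))) else
  if i < 2 * (k - 1) then (12 * k + (14) + (2) * (i - 1 * (k - 1)), 12 * k + (8) + (-1) * (i - 1 * (k - 1))) else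
  if i < 3 * (k - 1) then (3 * k + (4) + (-1) * (i - 2 * (k - 1)), 0 * k + (1) + (2) * (i - 2 * (k - 1))) else
  if i < 4 * (k - 1) then (4 * k + (4) + (-1) * (i - 3 * (k - 1)), 14 * k + (13) + (2) * (i - 3 * (k - 1))) else
  if i < 5 * (k - 1) then (5 * k + (4) + (-1) * (i - 4 * (k - 1)), 14 * k + (14) + (2) * (i - 4 * (k - 1))) else
  if i < 6 * (k - 1) then (7 * k + (3) + (-1) * (i - 5 * (k - 1)), 0 * k + (4) + (2) * (i - 5 * (k - 1))) else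
  if i < 7 * (k - 1) then (7 * k + (9) + (2) * (i - 6 * (k - 1)), 6 * k + (3) + (-1) * (i - 6 * (k - 1))) else
  if i < 8 * (k - 1) then (7 * k + (8) + (2) * (i - 7 * (k - 1)), 10 * k + (6) + (-1) * (i - 7 * (k - 1))) else
  if i = 8 * (k - 1) + 0 then (9 * k + (7), 0 * k + (2)) else
  if i = 8 * (k - 1) + 1 then (2 * k + (5), 2 * k + (-1)) else
  if i = 8 * (k - 1) + 2 then (3 * k + (5), 16 * k + (11)) else
  if i = 8 * (k - 1) + 3 then (4 * k + (5), 10 * k + (7)) else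
  if i = 8 * (k - 1) + 4 then (7 * k + (5), 10 * k + (8)) else
  if i = 8 * (k - 1) + 5 then (12 * k + (9), 10 * k + (9)) else
  if i = 8 * (k - 1) + 6 then (9 * k + (6), 14 * k + (12)) else
  if i = 8 * (k - 1) + 7 then (7 * k + (6), 7 * k + (7)) else
  if i = 8 * (k - 1) + 8 then (2 * k + (3), 12 * k + (12)) else
  if i = 8 * (k - 1) + 9 then (16 * k + (12), 2 * k + (1)) else
  if i = 8 * (k - 1) + 10 then (2 * k + (4), 12 * k + (10)) else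
  if i = 8 * (k - 1) + 11 then (6 * k + (4), 12 * k + (11)) else
  (7 * k + (4), 12 * k + (13))

lemma csC (k i : ℤ) (h0 : 0 ≤ i) (hi : i < (8 * k + 5)) (p : ℤ × ℤ) (hp : PC k i = p) :
    (0 * (k - 1) ≤ i ∧ i < 1 * (k - 1) ∧ p.1 = 12 * k + (15) + (2) * (i - 0 * (k - 1)) ∧ p.2 = 11 * k + (8) + (-1) * (i - 0 * (k - 1))) ∨
    (1 * (k - 1) ≤ i ∧ i < 2 * (k - 1) ∧ p.1 = 12 * k + (14) + (2) * (i - 1 * (k - 1)) ∧ p.2 = 12 * k + (8) + (-1) * (i - 1 * (k - 1))) ∨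
    (2 * (k - 1) ≤ i ∧ i < 3 * (k - 1) ∧ p.1 = 3 * k + (4) + (-1) * (i - 2 * (k - 1)) ∧ p.2 = 0 * k + (1) + (2) * (i - 2 * (k - 1))) ∨
    (3 * (k - 1) ≤ i ∧ i < 4 * (k - 1) ∧ p.1 = 4 * k + (4) + (-1) * (i - 3 * (k - 1)) ∧ p.2 = 14 * k + (13) + (2) * (i - 3 * (k - 1))) ∨
    (4 * (k - 1) ≤ i ∧ i < 5 * (k - 1) ∧ p.1 = 5 * k + (4) + (-1) * (i - 4 * (k - 1)) ∧ p.2 = 14 * k + (14) + (2) * (i - 4 * (k - 1))) ∨
    (5 * (k - 1) ≤ i ∧ i < 6 * (k - 1) ∧ p.1 = 7 * k + (3) + (-1) * (i - 5 * (k - 1)) ∧ p.2 = 0 * k + (4) + (2) * (i - 5 * (k - 1))) ∨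
    (6 * (k - 1) ≤ i ∧ i < 7 * (k - 1) ∧ p.1 = 7 * k + (9) + (2) * (i - 6 * (k - 1)) ∧ p.2 = 6 * k + (3) + (-1) * (i - 6 * (k - 1))) ∨
    (7 * (k - 1) ≤ i ∧ i < 8 * (k - 1) ∧ p.1 = 7 * k + (8) + (2) * (i - 7 * (k - 1)) ∧ p.2 = 10 * k + (6) + (-1) * (i - 7 * (k - 1))) ∨
    (i = 8 * (k - 1) + 0 ∧ p.1 = 9 * k + (7) ∧ p.2 = 0 * k + (2)) ∨
    (i = 8 * (k - 1) + 1 ∧ p.1 = 2 * k + (5) ∧ p.2 = 2 * k + (-1)) ∨
    (i = 8 * (k - 1) + 2 ∧ p.1 = 3 * k + (5) ∧ p.2 = 16 * k + (11)) ∨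
    (i = 8 * (k - 1) + 3 ∧ p.1 = 4 * k + (5) ∧ p.2 = 10 * k + (7)) ∨
    (i = 8 * (k - 1) + 4 ∧ p.1 = 7 * k + (5) ∧ p.2 = 10 * k + (8)) ∨
    (i = 8 * (k - 1) + 5 ∧ p.1 = 12 * k + (9) ∧ p.2 = 10 * k + (9)) ∨
    (i = 8 * (k - 1) + 6 ∧ p.1 = 9 * k + (6) ∧ p.2 = 14 * k + (12)) ∨
    (i = 8 * (k - 1) + 7 ∧ p.1 = 7 * k + (6) ∧ p.2 = 7 * k + (7)) ∨
    (i = 8 * (k - 1) + 8 ∧ p.1 = 2 * k + (3) ∧ p.2 = 12 * k + (12)) ∨
    (i = 8 * (k - 1) + 9 ∧ p.1 = 16 * k + (12) ∧ p.2 = 2 * k + (1)) ∨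
    (i = 8 * (k - 1) + 10 ∧ p.1 = 2 * k + (4) ∧ p.2 = 12 * k + (10)) ∨
    (i = 8 * (k - 1) + 11 ∧ p.1 = 6 * k + (4) ∧ p.2 = 12 * k + (11)) ∨
    (i = 8 * (k - 1) + 12 ∧ p.1 = 7 * k + (4) ∧ p.2 = 12 * k + (13)) := by
  unfold PC at hp
  by_cases c0 : i < 1 * (k - 1)
  · rw [if_pos c0] at hp; subst hp; exact Or.inl ⟨by omega, by omega, rfl, rfl⟩
  rw [if_neg c0] at hp; right
  by_cases c1 : i < 2 * (k - 1)
  · rw [if_pos c1] at hp; subst hp; exact Or.inl ⟨by omega, by omega, rfl, rfl⟩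
  rw [if_neg c1] at hp; right
  by_cases c2 : i < 3 * (k - 1)
  · rw [if_pos c2] at hp; subst hp; exact Or.inl ⟨by omega, by omega, rfl, rfl⟩
  rw [if_neg c2] at hp; right
  by_cases c3 : i < 4 * (k - 1)
  · rw [if_pos c3] at hp; subst hp; exact Or.inl ⟨by omega, by omega, rfl, rfl⟩
  rw [if_neg c3] at hp; right
  by_cases c4 : i < 5 * (k - 1)
  · rw [if_pos c4] at hp; subst hp; exact Or.inl ⟨by omega, by omega, rfl, rfl⟩
  rw [if_neg c4] at hp; right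
  by_cases c5 : i < 6 * (k - 1)
  · rw [if_pos c5] at hp; subst hp; exact Or.inl ⟨by omega, by omega, rfl, rfl⟩
  rw [if_neg c5] at hp; right
  by_cases c6 : i < 7 * (k - 1)
  · rw [if_pos c6] at hp; subst hp; exact Or.inl ⟨by omega, by omega, rfl, rfl⟩
  rw [if_neg c6] at hp; right
  by_cases c7 : i < 8 * (k - 1)
  · rw [if_pos c7] at hp; subst hp; exact Or.inl ⟨by omega, by omega, rfl, rfl⟩
  rw [if_neg c7] at hp; right
  by_cases d0 : i = 8 * (k - 1) + 0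
  · rw [if_pos d0] at hp; subst hp; exact Or.inl ⟨d0, rfl, rfl⟩
  rw [if_neg d0] at hp; right
  by_cases d1 : i = 8 * (k - 1) + 1
  · rw [if_pos d1] at hp; subst hp; exact Or.inl ⟨d1, rfl, rfl⟩
  rw [if_neg d1] at hp; right
  by_cases d2 : i = 8 * (k - 1) + 2
  · rw [if_pos d2] at hp; subst hp; exact Or.inl ⟨d2, rfl, rfl⟩
  rw [if_neg d2] at hp; right
  by_cases d3 : i = 8 * (k - 1) + 3
  · rw [if_pos d3] at hp; subst hp; exact Or.inl ⟨d3, rfl, rfl⟩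
  rw [if_neg d3] at hp; right
  by_cases d4 : i = 8 * (k - 1) + 4
  · rw [if_pos d4] at hp; subst hp; exact Or.inl ⟨d4, rfl, rfl⟩
  rw [if_neg d4] at hp; right
  by_cases d5 : i = 8 * (k - 1) + 5
  · rw [if_pos d5] at hp; subst hp; exact Or.inl ⟨d5, rfl, rfl⟩
  rw [if_neg d5] at hp; right
  by_cases d6 : i = 8 * (k - 1) + 6
  · rw [if_pos d6] at hp; subst hp; exact Or.inl ⟨d6, rfl, rfl⟩
  rw [if_neg d6] at hp; right
  by_cases d7 : i = 8 * (k - 1) + 7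
  · rw [if_pos d7] at hp; subst hp; exact Or.inl ⟨d7, rfl, rfl⟩
  rw [if_neg d7] at hp; right
  by_cases d8 : i = 8 * (k - 1) + 8
  · rw [if_pos d8] at hp; subst hp; exact Or.inl ⟨d8, rfl, rfl⟩
  rw [if_neg d8] at hp; right
  by_cases d9 : i = 8 * (k - 1) + 9
  · rw [if_pos d9] at hp; subst hp; exact Or.inl ⟨d9, rfl, rfl⟩
  rw [if_neg d9] at hp; right
  by_cases d10 : i = 8 * (k - 1) + 10
  · rw [if_pos d10] at hp; subst hp; exact Or.inl ⟨d10, rfl, rfl⟩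
  rw [if_neg d10] at hp; right
  by_cases d11 : i = 8 * (k - 1) + 11
  · rw [if_pos d11] at hp; subst hp; exact Or.inl ⟨d11, rfl, rfl⟩
  rw [if_neg d11] at hp; right
  subst hp; exact ⟨by omega, rfl, rfl⟩

lemma c1C (k i : ℤ) (hk : 1 ≤ k) (h0 : 0 ≤ i) (hi : i < (8 * k + 5)) (p : ℤ × ℤ) (hp : PC k i = p) :
    C1 (8 * k + 5) (2 * k + 2) (11 * k + 9) (3 * k + 5) p := by
  have h := csC k i h0 hi p hp
  clear hp
  unfold C1
  rcases h with h | h | h | h | h | h | h | h | h | h | h | h | h | h | h | h | h | h | h | h | h <;> omega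

lemma c2aC (k i j : ℤ) (hk : 1 ≤ k) (h0 : 0 ≤ i) (hi : i < (8 * k + 5)) (h1 : 0 ≤ j) (hj : j < (8 * k + 5))
    (p q : ℤ × ℤ) (hp : PC k i = p) (hq : PC k j = q) :
    C2a (2 * k + 2) (11 * k + 9) i j p q := by
  have h := csC k i h0 hi p hp
  have g := csC k j h1 hj q hq
  clear hp hq h0 h1 hi hj
  unfold C2a
  rcases h with h | h | h | h | h | h | h | h | h | h | h | h | h | h | h | h | h | h | h | h | h <;> rcases g with g | g | g | g | g | g | g | g | g | g | g | g | g | g | g | g | g | g | g | g | g <;> omega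

lemma c2bC (k i j : ℤ) (hk : 1 ≤ k) (h0 : 0 ≤ i) (hi : i < (8 * k + 5)) (h1 : 0 ≤ j) (hj : j < (8 * k + 5))
    (p q : ℤ × ℤ) (hp : PC k i = p) (hq : PC k j = q) :
    C2b (2 * k + 2) (11 * k + 9) i j p q := by
  have h := csC k i h0 hi p hp
  have g := csC k j h1 hj q hq
  clear hp hq h0 h1 hi hj
  unfold C2b
  rcases h with h | h | h | h | h | h | h | h | h | h | h | h | h | h | h | h | h | h | h | h | h <;> rcases g with g | g | g | g | g | g | g | g | g | g | g | g | g | g | g | g | g | g | g | g | g <;> omega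

lemma famC (k : ℕ) (hk : 1 ≤ k) : SEM (8 * k + 5) := by
  refine build _ (2 * k + 2) (11 * k + 9) (3 * k + 5) (fun i => PC k i) (by push_cast; omega) ?_ ?_ ?_
  · intro i hi
    have := c1C k i (by omega) (by omega) (by omega) _ rfl
    simpa using this
  · intro i hi j hj
    exact c2aC k i j (by omega) (by omega) (by omega) (by omega) (by omega) _ _ rfl rfl
  · intro i hi j hj
    exact c2bC k i j (by omega) (by omega) (by omega) (by omega) (by omega) _ _ rfl rfl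

lemma s5 : SEM 5 :=
  build 5 2 9 5 (fun i => ([(4, 1), (6, 3), (5, 10), (12, 8), (11, 7)] : List (ℤ × ℤ)).getD i (0, 0))
    (by decide +kernel) (by decide +kernel) (by decide +kernel) (by decide +kernel)

lemma suf (n : ℕ) (hn : 5 ≤ n) (h : n % 2 = 0 ∨ n % 8 = 5) : SEM n := by
  by_cases h5 : n = 5
  · subst h5; exact s5
  have : n % 4 = 2 ∨ n % 4 = 0 ∨ n % 8 = 5 := by omega
  rcases this with h' | h' | h'
  · have := famA (n / 4) (by omega)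
    rwa [show 4 * (n / 4) + 2 = n by omega] at this
  · have := famB (n / 4) (by omega)
    rwa [show 4 * (n / 4) + 0 = n by omega] at this
  · have := famC (n / 8) (by omega)
    rwa [show 8 * (n / 8) + 5 = n by omega] at this

lemma sI (lo : ℤ) (m : ℕ) (hi : ℤ) (h : hi + 1 - lo = m) :
    2 * ∑ x ∈ Finset.Icc lo hi, x = m * (2 * lo + m - 1) := by
  have h1 : ∀ m : ℕ, 2 * ∑ x ∈ Finset.range m, (lo + (x : ℤ)) = m * (2 * lo + m - 1) := by
    intro m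
    induction m with
    | zero => simp
    | succ k ih => rw [Finset.sum_range_succ, mul_add, ih]; push_cast; ring
  rw [Int.Icc_eq_finset_map, Finset.sum_map, h, Int.toNat_natCast]
  exact h1 m

lemma sB {A : Type} [Fintype A] (f : A → ℤ) (lo hi : ℤ)
    (h : Set.BijOn f Set.univ (Set.Icc lo hi)) : ∑ a, f a = ∑ x ∈ Finset.Icc lo hi, x := by
  refine Finset.sum_nbij f (fun a _ => Finset.mem_Icc.2 (h.1 (Set.mem_univ a))) ?_ ?_ (fun _ _ => rfl)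
  · intro a _ b _ hab
    exact h.2.1 (Set.mem_univ a) (Set.mem_univ b) hab
  · intro y hy
    obtain ⟨x, -, rfl⟩ := h.2.2 (Finset.mem_Icc.1 (Finset.mem_coe.1 hy))
    exact ⟨x, by simp, rfl⟩

lemma nec (n : ℕ) (h : SEM n) : n % 2 = 0 ∨ n % 8 = 5 := by
  obtain ⟨f, g, σ, hf, hg, he⟩ := h
  have e1 := sI 1 (2 * n + 2) (2 * n + 2) (by push_cast; ring)
  have e2 := sI (2 * n + 3) (3 * n + 1) (5 * n + 3) (by push_cast; ring)
  rw [← sB f _ _ hf] at e1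
  rw [← sB g _ _ hg] at e2
  have e3 : ∑ e : E n, (f (ends e).1 + f (ends e).2 + g e) = (3 * n + 1) * σ := by
    simp only [he]
    simp
    left; ring
  rw [Finset.sum_add_distrib] at e3
  have e4 : ∑ e : E n, (f (ends e).1 + f (ends e).2) =
      (n + 1) * (f (none, false) + f (none, true)) +
        2 * ∑ i : Fin n, (f (some i, false) + f (some i, true)) := by
    rw [Fintype.sum_option, Fintype.sum_prod_type]
    simp only [Fin.sum_univ_three, ends, Finset.sum_add_distrib, Finset.sum_const, Finset.card_univ,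
      Fintype.card_fin, nsmul_eq_mul]
    ring
  have e5 : ∑ v : V n, f v = f (none, false) + f (none, true) +
      ∑ i : Fin n, (f (some i, false) + f (some i, true)) := by
    rw [Fintype.sum_prod_type, Fintype.sum_option]
    simp only [Fintype.sum_bool, Finset.sum_add_distrib]
    ring
  rw [e4] at e3
  rw [e5] at e1
  generalize f (none, false) + f (none, true) = t at *
  generalize ∑ i : Fin n, (f (some i, false) + f (some i, true)) = S at *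
  generalize ∑ e : E n, g e = Gs at *
  by_cases hn : n % 2 = 0
  · exact Or.inl hn
  right
  obtain ⟨a, rfl⟩ : ∃ a, n = 2 * a + 1 := ⟨n / 2, by omega⟩
  push_cast at e1 e2 e3
  have k1 : (a : ℤ) = 2 * (2 * σ - 23 - a * (t + 29 * a + 51 - 3 * σ)) := by
    linarith
  obtain ⟨b, rfl⟩ : ∃ b, a = 2 * b := ⟨a / 2, by omega⟩
  push_cast at k1
  have k2 : (b : ℤ) = 2 * (σ - 12 - b * (t + 58 * b + 51 - 3 * σ)) + 1 := by linarith
  omega

theorem result (n : ℕ) (hn : 5 ≤ n) : SEM n ↔ (n % 2 = 0 ∨ n % 8 = 5) :=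
  ⟨nec n, suf n hn⟩

end Pool.Agent.Results.MP_a60869_co.Book
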